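import Pool.Agent.U479.MC.Can

set_option autoImplicit false

/-!
# The conjecture of Harbourne and Hirschowitz is equivalent to its case of multiplicities at least three

For general points of the complex projective plane the conjecture says that the fat points of
multiplicities `m i` fail to impose maximal conditions in degree `d` if and only if the system
`|d H - ∑ m i E i|` is `(-1)`-special, i.e. `(-1)`-curves are contained in it at least twice. By
quadratic transformations it is equivalent to: a reduced tuple (the degree is at least the sum of any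
three multiplicities) always imposes maximal conditions. We prove:

1. If the conjecture is false for the tuple `(d; m 1, …, m n)`, then there are `e ≤ d` and a reduced
   tuple `(e; U)`, with `U i ≤ m i`, where some more simple points are allowed, of negative virtual
   dimension, whose linear system consists, for very general points, of one curve, which is
   irreducible and has the multiplicities `U i`; and `(e; U)` fails to impose maximal conditions also
   after all points of multiplicity at most two are omitted. At least ten of the `U i` are at least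
   three, and the sum of the `U i` is larger than `3 e`.
2. For every class `A` of tuples which is closed under lowering the degree and the multiplicities,
   the conjecture holds for all tuples in `A` if and only if all reduced tuples in `A` without
   multiplicities `1` and `2` impose maximal conditions. Examples: all tuples; all tuples with at
   most `N` multiplicities at least three, i.e. the conjecture for `N` points implies the
   conjecture for `N` points and any number of double and simple points; those of degree at most
   `D` or with all multiplicities at most `M`.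

Proof. Let `L = (d; m)` be reduced and special; after simple points are added, `h⁰(L) = 1`, and
`χ(L) ≤ 0`. Let `C` be an irreducible component of the curve, `C ≠ L`. If `χ(C) ≤ 0`, or if a class
which occurs in the reduction of `C` or of `L - C` to a reduced class has `h⁰ = 1 > χ`, then we have a
special reduced class of lower degree with smaller multiplicities. Otherwise `χ(C) = 1`, `C` is a
`(-1)`-curve or nef, `(L - C) C ≥ 0`, resp. `L C ≥ 0`, so `χ(L - C) ≤ 0`, and there is a `(-1)`-curve
`C'` with `(L - C) C' ≤ -2`, which is contained in `L - C`. As `L C' ≥ 0`, `C C' ≥ 2`, and `C + C'`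
moves, a contradiction. So in the end the curve is irreducible. Then by Terracini's argument (`tlem` of
the starting library) the points of multiplicity at most two impose independent conditions on the
system of the other ones, and so the latter is special.
-/

namespace Pool.Agent.Results.MP_1dafdd_ag.OmitSmallMultiplicities

open MvPolynomial Pool.Agent.TH167 Pool.Agent.TH167.SHDefs

/-- `A P` holds for general points `P 1, …, P n`. -/
def General {n : ℕ} (A : (Fin n → Fin 2 → ℂ) → Prop) : Prop :=
  ∃ F : MvPolynomial (Fin n × Fin 2) ℂ, F ≠ 0 ∧ ∀ P : Fin n → Fin 2 → ℂ,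
    MvPolynomial.eval (fun ij : Fin n × Fin 2 => P ij.1 ij.2) F ≠ 0 → A P

/-- `A P` holds for very general points `P 1, …, P n`. -/
def VeryGeneral {n : ℕ} (A : (Fin n → Fin 2 → ℂ) → Prop) : Prop :=
  ∃ Z : ℕ → MvPolynomial (Fin n × Fin 2) ℂ, (∀ k, Z k ≠ 0) ∧ ∀ P : Fin n → Fin 2 → ℂ,
    (∀ k, MvPolynomial.eval (fun ij : Fin n × Fin 2 => P ij.1 ij.2) (Z k) ≠ 0) → A P

/-- The conjecture for one tuple: for general points, the system is special if and only if it is
`(-1)`-special. -/
def HH {n : ℕ} (d : ℕ) (m : Fin n → ℕ) : Prop :=
  General fun P => Special P d m ↔ MinusOneSpecial P d m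

/-- The degree is at least the sum of any three multiplicities. -/
def IsReduced {n : ℕ} (d : ℕ) (m : Fin n → ℕ) : Prop :=
  ∀ i j k : Fin n, i ≠ j → i ≠ k → j ≠ k → m i + m j + m k ≤ d

/-- The multiplicities at least three; the other ones are replaced by zero. -/
def atLeastThree {n : ℕ} (m : Fin n → ℕ) : Fin n → ℕ := fun i => if 3 ≤ m i then m i else 0

/-- The class of tuples is closed under lowering the degree and the multiplicities. -/
def DownClosed (A : (n : ℕ) → ℕ → (Fin n → ℕ) → Prop) : Prop :=
  ∀ (n d e : ℕ) (m v : Fin n → ℕ), e ≤ d → (∀ i, v i ≤ m i) → A n d m → A n e v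

theorem result :
    -- (1)
    (∀ n, 4 ≤ n → ∀ (d : ℕ) (m : Fin n → ℕ), HH d m ∨
      ∃ (e t : ℕ) (U : Fin (n + t) → ℕ), e ≤ d ∧ (∀ i : Fin n, U (Fin.castAdd t i) ≤ m i) ∧
        (∀ i : Fin t, U (Fin.natAdd n i) ≤ 1) ∧ IsReduced e U ∧ virtdim e U < 0 ∧
        VeryGeneral (fun P => dimL P e U = 0 ∧ ∃ G, Curve P G e U) ∧
        General (fun P : Fin n → Fin 2 → ℂ =>
          Special P e (fun i : Fin n => atLeastThree U (Fin.castAdd t i))) ∧
        10 ≤ (Finset.univ.filter fun i => 3 ≤ U i).card ∧ 3 * e < ∑ i, U i) ∧
    -- (2)
    ∀ A : (n : ℕ) → ℕ → (Fin n → ℕ) → Prop, DownClosed A →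
      ((∀ n, 4 ≤ n → ∀ (d : ℕ) (m : Fin n → ℕ), A n d m → HH d m) ↔
        ∀ n, 4 ≤ n → ∀ (d : ℕ) (m : Fin n → ℕ), A n d m → IsReduced d m →
          (∀ i, m i = 0 ∨ 3 ≤ m i) → General fun P => ¬ Special P d m) := by
  refine ⟨fun n hn d m => ?_, fun A hA => U479.MC.equiv A hA⟩
  rcases U479.MC.main hn d m with h | ⟨e, t, U, a1, a2, a3, a4, a5, a6⟩
  · exact Or.inl h
  right
  obtain ⟨b1, b2, b3, b4⟩ := U479.MC.first hn a3 a4 a5 a6
  obtain ⟨Z, hZ, hZ'⟩ := SH.exists_fam (Fin (n + t) × Fin 2)
  refine ⟨e, t, U, a1, a2, a3, a4, ?_, ⟨Z, hZ, fun P hP => U479.MC.curve_of a6 ((hZ' _).1 hP)⟩,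
    U479.MC.genSpecial_iff.1 b2, b4, U479.MC.can_pos (by omega) a4 a5 a6⟩
  rw [SH.virtdim_eq]
  omega

end Pool.Agent.Results.MP_1dafdd_ag.OmitSmallMultiplicities
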