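import Mathlib
import Pool.Agent.U390.NT.Base

set_option autoImplicit false

/-!
# Plane fat points of nearly equal multiplicities with a tail impose maximal conditions

A vector `v` of multiplicities is called a base vector if there are a set `S` of `n` of the points
and natural numbers `m ≥ n / 2` and `T` with

* `v i = m` or `v i = m + 1` at the points of `S` and `24 T + 16 √n / 3 + 95 ≤ n`, or
  `v i = m` at the points of `S`, `n ≥ 149` and `8 T + 8 √n / 3 + 29 ≤ n`;
* `v i ≤ T` at all other points, and the sum of the squares of those of these `v i` which are at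
  least `2` is at most `T (m - T)`.

So `m` and `m + 1` occur `n` times in any proportion, any number of points is simple, and the tail
consists of arbitrary multiplicities up to about `n / 24` (`n / 8` for equal `v i` on `S`); the number
of its points is not bounded (it grows with `m`).

Then for all points of one nonempty open set of `(ℂ²)^k`, for EVERY degree `d` and for all
multiplicities `m` with `m ≤ v`, `χ (d; v) ≥ 0` or with `m ≥ v`, `χ (d; v) ≤ 0` (in particular for
`m = v`), the fat point scheme with the multiplicities `m i` imposes maximal conditions in degree `d`.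
So no tuple `(2, k, m 1, …, m k, d)` of this kind belongs to the list asked for in Q1.
-/

namespace Pool.Agent.Results.MP_1dafdd_ag.PlaneNearlyEqualTail

open MvPolynomial

/-- The forms of degree `d` vanishing to order at least `m i` at the points `(P i 0 : P i 1 : 1)`. -/
noncomputable def forms {k : ℕ} (P : Fin k → Fin 2 → ℂ) (d : ℕ) (m : Fin k → ℕ) :
    Submodule ℂ (MvPolynomial (Fin 3) ℂ) :=
  homogeneousSubmodule (Fin 3) ℂ d ⊓
    Submodule.restrictScalars ℂ
      (⨅ i : Fin k, (Ideal.span {X 0 - C (P i 0) * X 2, X 1 - C (P i 1) * X 2} :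
        Ideal (MvPolynomial (Fin 3) ℂ)) ^ (m i))

/-- The number of the conditions. -/
def conditions {k : ℕ} (m : Fin k → ℕ) : ℕ := ∑ i, (m i + 1).choose 2

/-- The fat points impose maximal conditions in degree `d`. -/
def MaximalConditions {k : ℕ} (P : Fin k → Fin 2 → ℂ) (m : Fin k → ℕ) (d : ℕ) : Prop :=
  (Module.finrank ℂ ↥(forms P d m) : ℤ) = max 0 (((d + 2).choose 2 : ℤ) - conditions m)

/-- The base vectors: the multiplicities at the points of the set `S` are `m` or `m + 1`, or all
equal to `m`, where `|S| ≤ 2 m`; the other multiplicities are at most `T`, which is bounded by about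
`|S| / 24` resp. `|S| / 8`, and the sum of the squares of those of them which are larger than `1` is
at most `T (m - T)`. -/
def Base {h : ℕ} (v : Fin h → ℕ) : Prop :=
  ∃ (S : Finset (Fin h)) (m T : ℕ), S.card ≤ 2 * m ∧
    (((∀ i ∈ S, v i = m ∨ v i = m + 1) ∧
        24 * (T : ℝ) + 16 * √(S.card : ℝ) / 3 + 95 ≤ S.card) ∨
      ((∀ i ∈ S, v i = m) ∧ 149 ≤ S.card ∧
        8 * (T : ℝ) + 8 * √(S.card : ℝ) / 3 + 29 ≤ S.card)) ∧
    (∀ j, j ∉ S → v j ≤ T) ∧
    ∑ j ∈ Finset.univ.filter (fun j => j ∉ S ∧ 2 ≤ v j), v j ^ 2 + T ^ 2 ≤ T * m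

theorem result (k : ℕ) (v : Fin k → ℕ) (hv : Base v) :
    ∃ F : MvPolynomial (Fin k × Fin 2) ℂ, F ≠ 0 ∧
      ∀ P : Fin k → Fin 2 → ℂ, eval (fun ij : Fin k × Fin 2 => P ij.1 ij.2) F ≠ 0 →
        ∀ (d : ℕ) (m : Fin k → ℕ),
          ((∀ i, m i ≤ v i) ∧ conditions v ≤ (d + 2).choose 2) ∨
            ((∀ i, v i ≤ m i) ∧ (d + 2).choose 2 ≤ conditions v) →
          MaximalConditions P m d := by
  obtain ⟨F, hF, hF'⟩ := Pool.Agent.U390.NT.base_exp (v := v) hv
  refine ⟨F.map (algebraMap ℚ ℂ), Pool.Agent.H932R3.map_ne_zero_of hF, fun P hP d m hm => ?_⟩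
  rw [eval_map] at hP
  have h1 : Module.finrank ℂ ↥(forms P d m) =
      Nat.choose (d + 2) 2 - ∑ i, Nat.choose (m i + 1) 2 :=
    Pool.Agent.U605.ST.expDim_side (hF' P hP d) hm
  unfold MaximalConditions conditions
  rw [h1]
  omega

end Pool.Agent.Results.MP_1dafdd_ag.PlaneNearlyEqualTail
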