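import Mathlib
import Pool.Agent.U605.ST.Side

set_option autoImplicit false

/-!
# Plane fat points of equal multiplicities with a packed tail impose maximal conditions

A vector `v` of `k` multiplicities is called a base vector if `n ≥ 36` of them are equal to `M` with
`n ≤ 4 (√n - 5) M`, any number of them are `1` or `0`, and for the others, the tail, there are
natural numbers `T`, `H` such that, with `room = (3 √n - 5 - n / (4 M)) / 4` and all sums over the tail,

* `v i ≤ T` and `2 ∑ v i ^ 2 + T ^ 2 ≤ T H`;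
* `T ≤ room` and `H ≤ 2 M`, or `room * H ≤ (2 room - T) M`;
* `∑ v i (v i + 1) ≤ (√n - 5) M`.

Then for all points of one nonempty open set of `(ℂ²)^k`, for EVERY degree `d` and for all
multiplicities `m` with `m ≤ v`, `χ (d; v) ≥ 0` or with `m ≥ v`, `χ (d; v) ≤ 0` (in particular for
`m = v`), the fat point scheme with the multiplicities `m i` imposes maximal conditions in degree `d`.
So no tuple `(2, k, m 1, …, m k, d)` of this kind belongs to the list asked for in Q1.
-/

namespace Pool.Agent.Results.MP_1dafdd_ag.PlanePackedTail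

open MvPolynomial

/-- The forms of degree `d` vanishing to order at least `m i` at the points `(P i 0 : P i 1 : 1)`. -/
noncomputable def forms {k : ℕ} (P : Fin k → Fin 2 → ℂ) (d : ℕ) (m : Fin k → ℕ) :
    Submodule ℂ (MvPolynomial (Fin 3) ℂ) :=
  homogeneousSubmodule (Fin 3) ℂ d ⊓
    Submodule.restrictScalars ℂ
      (⨅ i : Fin k, (Ideal.span {X 0 - C (P i 0) * X 2, X 1 - C (P i 1) * X 2} :
        Ideal (MvPolynomial (Fin 3) ℂ)) ^ (m i))

/-- The number of the conditions. -/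
def conditions {k : ℕ} (m : Fin k → ℕ) : ℕ := ∑ i, (m i + 1).choose 2

/-- The fat points impose maximal conditions in degree `d`. -/
def MaximalConditions {k : ℕ} (P : Fin k → Fin 2 → ℂ) (m : Fin k → ℕ) (d : ℕ) : Prop :=
  (Module.finrank ℂ ↥(forms P d m) : ℤ) = max 0 (((d + 2).choose 2 : ℤ) - conditions m)

/-- The tail: the points whose multiplicity is at least `2` and different from `M`. -/
def tail {k : ℕ} (M : ℕ) (v : Fin k → ℕ) : Finset (Fin k) :=
  Finset.univ.filter fun i => 2 ≤ v i ∧ v i ≠ M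

/-- The room beside `n` points of multiplicity `M`. -/
noncomputable def room (n M : ℕ) : ℝ := (3 * √(n : ℝ) - 5 - (n : ℝ) / (4 * M)) / 4

/-- The base vectors. -/
def Base {k : ℕ} (v : Fin k → ℕ) : Prop :=
  ∃ n M T H : ℕ, 36 ≤ n ∧ (Finset.univ.filter fun i => v i = M).card = n ∧
    (n : ℝ) ≤ 4 * (√(n : ℝ) - 5) * M ∧
    (∀ i ∈ tail M v, v i ≤ T) ∧ 2 * ∑ i ∈ tail M v, v i ^ 2 + T ^ 2 ≤ T * H ∧
    ((H ≤ 2 * M ∧ (T : ℝ) ≤ room n M) ∨ room n M * H ≤ (2 * room n M - T) * M) ∧
    ∑ i ∈ tail M v, (v i : ℝ) * (v i + 1) ≤ (√(n : ℝ) - 5) * M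

theorem result (k : ℕ) (v : Fin k → ℕ) (hv : Base v) :
    ∃ F : MvPolynomial (Fin k × Fin 2) ℂ, F ≠ 0 ∧
      ∀ P : Fin k → Fin 2 → ℂ, eval (fun ij : Fin k × Fin 2 => P ij.1 ij.2) F ≠ 0 →
        ∀ (d : ℕ) (m : Fin k → ℕ),
          ((∀ i, m i ≤ v i) ∧ conditions v ≤ (d + 2).choose 2) ∨
            ((∀ i, v i ≤ m i) ∧ (d + 2).choose 2 ≤ conditions v) →
          MaximalConditions P m d := by
  obtain ⟨n, M, T, H, hn, hcard, hM, hT, hTH, hroom, hsum⟩ := hv
  obtain ⟨F, hF, hF'⟩ := Pool.Agent.U605.ST.expDim_packed v hn hM hcard hT hTH hroom hsum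
  refine ⟨F.map (algebraMap ℚ ℂ), Pool.Agent.H932R3.map_ne_zero_of hF, fun P hP d m hm => ?_⟩
  rw [eval_map] at hP
  have h1 : Module.finrank ℂ ↥(forms P d m) =
      Nat.choose (d + 2) 2 - ∑ i, Nat.choose (m i + 1) 2 :=
    Pool.Agent.U605.ST.expDim_side (hF' P hP d) hm
  unfold MaximalConditions conditions
  rw [h1]
  omega

end Pool.Agent.Results.MP_1dafdd_ag.PlanePackedTail
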